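import Pool.Agent.Helper97.TN.FinB
import Pool.Agent.Helper79.TT.M_A10

/-!
# The residue formula under base change to fields with a 2-transitive group

`k` a number field, `X` ANY smooth projective variety over `k`, or ANY fibration `X → Y` over `k`: `b v` is the trace of
Frobenius on `H²` (or the average over the fibres, `𝔅_v` of the problem) at the prime `v` of `k`.  All that is used of `b` is
`|b v - c q_v| ≤ B q_v` for almost all `v`, with constants `c`, `B` (Deligne).  For a finite extension `K/k` the base change of `X` to `K`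
has the traces `bK w`, equal to `b v` if `w` is a prime of degree one above `v`, and `O(q_w)` at the other primes.

THEOREM.  For ALL extensions `K_i/k`, of all degrees together, for which the Galois group of the Galois closure is
2-TRANSITIVE (on the embeddings of `K_i`; for example `S_n`, `A_n` with `n ≥ 4`, `PSL_2(q)`, affine groups, Mathieu groups) and the
Galois closures are pairwise DIFFERENT (no linear disjointness is assumed): `∑_i ((s-2) F_i(s) - (s-2) F(s))² ≤ B² + ε` for `s > 2`
close to `2`, where `F` and `F_i` are the functions of the problem for `X/k` and for the base changes `X/K_i`.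

The proof: the number of primes of degree one of `K` above `v` is the number of fixed points of a Frobenius element on the
embeddings of `K`; Frobenius' density theorem (only the pole of Dedekind zeta functions at `1` is used); for a 2-transitive group
this number minus `1` has norm `1`, and for different Galois closures these functions are orthogonal, because a nontrivial normal
subgroup of a 2-transitive group is transitive; Bessel's inequality.
-/

set_option autoImplicit false

namespace Pool.Agent.Results.MP_6090f9_nt.BaseChange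

open NumberField IsDedekindDomain Polynomial Filter Topology
open scoped Classical

noncomputable section

/-- the primes of the number field `k` -/
abbrev Primes (k : Type) [Field k] [NumberField k] : Type := HeightOneSpectrum (𝓞 k)

variable {k : Type} [Field k] [NumberField k]

/-- the number of elements of the residue field -/
def q (v : Primes k) : ℕ := Ideal.absNorm v.asIdeal

/-- the function `F` -/
def F (b : Primes k → ℝ) (s : ℝ) : ℝ := ∑' v : Primes k, b v * Real.log (q v) * (q v : ℝ) ^ (-s)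

/-- `F` has residue `r` at `s = 2` (along the real axis) -/
def HasRes (b : Primes k → ℝ) (r : ℝ) : Prop :=
  Tendsto (fun s : ℝ => (s - 2) * F b s) (𝓝[>] 2) (𝓝 r)

/-- `exp(∑ b_v q_v^(-s))` has a meromorphic continuation to a neighbourhood of `2` (for a smooth projective variety over `k`
this function is `L_2(s)` up to a function that is holomorphic and nonzero at `2`) -/
def Continues (b : Primes k → ℝ) : Prop :=
  ∃ G : ℂ → ℂ, MeromorphicAt G 2 ∧
    ∀ᶠ s : ℝ in 𝓝[>] 2, G s = ((Real.exp (∑' v : Primes k, b v * (q v : ℝ) ^ (-s)) : ℝ) : ℂ)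

/-- `w` is a prime of degree one of `K` above the prime `v` of `k` -/
def DegOne {K : Type} [Field K] [NumberField K] [Algebra k K] (w : Primes K) (v : Primes k) : Prop :=
  w.asIdeal.comap (algebraMap (𝓞 k) (𝓞 K)) = v.asIdeal ∧ q w = q v

/-- `bK` behaves like the traces on `H²` of the base change to `K`: outside a finite set of primes of `K` it is `O(q_w)`, and equal to
`b v` up to a bounded error if `w` is of degree one above `v` -/
def IsBaseChange (K : Type) [Field K] [NumberField K] [Algebra k K] (b : Primes k → ℝ)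
    (bK : Primes K → ℝ) : Prop :=
  ∃ C : ℝ, ∀ᶠ w : Primes K in cofinite, |bK w| ≤ C * q w ∧ ∀ v : Primes k, DegOne w v → |bK w - b v| ≤ C

/-- `K/k` has degree at least `2` and the Galois group of its Galois closure is 2-transitive on the embeddings of `K` into `k̄` -/
def TwoTransitive (k K : Type) [Field k] [NumberField k] [Field K] [NumberField K] [Algebra k K] : Prop :=
  2 ≤ Module.finrank k K ∧ ∀ x y x' y' : K →ₐ[k] AlgebraicClosure k, x ≠ y → x' ≠ y' →
    ∃ g : AlgebraicClosure k ≃ₐ[k] AlgebraicClosure k, (∀ z, g (x z) = x' z) ∧ ∀ z, g (y z) = y' z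

/-- `K` and `K'` have the same Galois closure in `k̄`: the automorphisms that are trivial on all conjugates of `K` are those
that are trivial on all conjugates of `K'` -/
def SameClosure (k K K' : Type) [Field k] [NumberField k] [Field K] [NumberField K] [Field K']
    [NumberField K'] [Algebra k K] [Algebra k K'] : Prop :=
  ∀ g : AlgebraicClosure k ≃ₐ[k] AlgebraicClosure k,
    (∀ (x : K →ₐ[k] AlgebraicClosure k) (z : K), g (x z) = x z) ↔
      ∀ (x : K' →ₐ[k] AlgebraicClosure k) (z : K'), g (x z) = x z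

/-! ## Proof -/

theorem main (k : Type) [Field k] [NumberField k] (b : Primes k → ℝ) (c B : ℝ)
    (hb : ∀ᶠ v : Primes k in cofinite, |b v - c * q v| ≤ B * q v)
    (ι : Type) (K : ι → Type) [∀ i, Field (K i)] [∀ i, NumberField (K i)] [∀ i, Algebra k (K i)]
    (hK : ∀ i, TwoTransitive k (K i)) (hKK : ∀ i j, i ≠ j → ¬ SameClosure k (K i) (K j))
    (bK : ∀ i, Primes (K i) → ℝ) (hbK : ∀ i, IsBaseChange (K i) b (bK i)) (S : Finset ι) :
    (∀ s : ℝ, 2 < s → Summable (fun v : Primes k => b v * Real.log (q v) * (q v : ℝ) ^ (-s))) ∧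
    (∀ i ∈ S, ∀ s : ℝ, 2 < s →
      Summable (fun w : Primes (K i) => bK i w * Real.log (q w) * (q w : ℝ) ^ (-s))) ∧
    ∀ ε > 0, ∀ᶠ s : ℝ in 𝓝[>] 2,
      ∑ i ∈ S, ((s - 2) * F (bK i) s - (s - 2) * F b s) ^ 2 ≤ B ^ 2 + ε := by
  choose C hC using hbK
  have h := Pool.Agent.Helper97.TN.finite_formB k b c B (∑ i ∈ S, |C i|) _ hb
    (fun v hv => not_not.1 hv) S (fun i => K i) (fun i => bK i)
    (fun i => {w | ¬ (|bK i w| ≤ C i * q w ∧ ∀ v : Primes k, DegOne w v → |bK i w - b v| ≤ C i)})
    (fun i => hC i) (fun i => (hK i).1) (fun i => (hK i).2)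
    (fun i j hij => by
      have h1 := hKK i j fun h => hij (Subtype.ext h)
      unfold SameClosure at h1
      push Not at h1
      obtain ⟨g, hg⟩ := h1
      exact ⟨g, fun h2 => by
        rcases hg with ⟨h3, x, z, h4⟩ | ⟨⟨x, z, h3⟩, h4⟩
        · exact h4 (h2.1 h3 x z)
        · exact h3 (h2.2 h4 x z)⟩)
    (fun i w hw => by
      have h1 := (not_not.1 hw).1
      refine h1.trans (mul_le_mul_of_nonneg_right ?_ (Nat.cast_nonneg _))
      exact (le_abs_self _).trans
        (Finset.single_le_sum (f := fun i => |C i|) (fun _ _ => abs_nonneg _) i.2))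
    (fun i w v hw hwv => by
      have h1 := (not_not.1 hw).2 v hwv
      exact h1.trans ((le_abs_self _).trans
        (Finset.single_le_sum (f := fun i => |C i|) (fun _ _ => abs_nonneg _) i.2)))
  refine ⟨h.1, fun i hi => h.2.1 ⟨i, hi⟩, fun ε hε => ?_⟩
  filter_upwards [h.2.2 ε hε] with s hs
  have e1 : ∑ i ∈ S, ((s - 2) * F (bK i) s - (s - 2) * F b s) ^ 2 =
      ∑ i : S, ((s - 2) * F (bK i) s - (s - 2) * F b s) ^ 2 :=
    (Finset.sum_coe_sort S fun i => ((s - 2) * F (bK i) s - (s - 2) * F b s) ^ 2).symm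
  rw [e1]
  exact hs

/-- **Theorem.**  Let `k` be a number field, `b` a real function on its primes with `|b v - c q_v| ≤ B q_v` for almost all `v`, `K_i` a
family (finite or infinite) of extensions of `k` of degree at least `2`, such that the Galois groups of their Galois closures are
2-transitive and the Galois closures are pairwise different, and `bK_i` a base change of `b` to `K_i`.  Then (1) the series `F` and
`F_i` converge for `s > 2`; (2) for every finite set `S` of indices and `ε > 0`: `∑_(i ∈ S) ((s-2) F_i(s) - (s-2) F(s))² ≤ B² + ε` for all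
`s > 2` close to `2`; (3) if `(s-2) F(s) → r` and `(s-2) F_i(s) → r_i` for `i ∈ S` along a filter `l` finer than that of the right
neighbourhoods of `2` then `∑_(i ∈ S) (r_i - r)² ≤ B²`; (4) if `F` has the residue `ρ ∈ ℤ` at `2` then, among the `i` for which
`exp(∑ bK_i(w) q_w^(-s))` is meromorphic at `2`, all but at most `B²` have `F_i` with the residue exactly `ρ`. -/
theorem result (k : Type) [Field k] [NumberField k] (b : Primes k → ℝ) (c B : ℝ)
    (hb : ∀ᶠ v : Primes k in cofinite, |b v - c * q v| ≤ B * q v)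
    (ι : Type) (K : ι → Type) [∀ i, Field (K i)] [∀ i, NumberField (K i)] [∀ i, Algebra k (K i)]
    (hK : ∀ i, TwoTransitive k (K i)) (hKK : ∀ i j, i ≠ j → ¬ SameClosure k (K i) (K j))
    (bK : ∀ i, Primes (K i) → ℝ) (hbK : ∀ i, IsBaseChange (K i) b (bK i)) :
    ((∀ s : ℝ, 2 < s → Summable (fun v : Primes k => b v * Real.log (q v) * (q v : ℝ) ^ (-s))) ∧
      ∀ i, ∀ s : ℝ, 2 < s →
        Summable (fun w : Primes (K i) => bK i w * Real.log (q w) * (q w : ℝ) ^ (-s))) ∧
    (∀ (S : Finset ι), ∀ ε > 0, ∀ᶠ s : ℝ in 𝓝[>] 2,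
      ∑ i ∈ S, ((s - 2) * F (bK i) s - (s - 2) * F b s) ^ 2 ≤ B ^ 2 + ε) ∧
    (∀ (l : Filter ℝ), l.NeBot → l ≤ 𝓝[>] 2 → ∀ (S : Finset ι) (r : ℝ) (r' : ι → ℝ),
      Tendsto (fun s : ℝ => (s - 2) * F b s) l (𝓝 r) →
      (∀ i ∈ S, Tendsto (fun s : ℝ => (s - 2) * F (bK i) s) l (𝓝 (r' i))) →
      ∑ i ∈ S, (r' i - r) ^ 2 ≤ B ^ 2) ∧
    ∀ ρ : ℤ, HasRes b ρ → {i | Continues (bK i) ∧ ¬ HasRes (bK i) ρ}.Finite ∧
      ({i | Continues (bK i) ∧ ¬ HasRes (bK i) ρ}.ncard : ℝ) ≤ B ^ 2 := by
  have hm := main k b c B hb ι K hK hKK bK hbK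
  have hsum : ∀ i, ∀ s : ℝ, 2 < s →
      Summable (fun w : Primes (K i) => bK i w * Real.log (q w) * (q w : ℝ) ^ (-s)) :=
    fun i s hs => (hm {i}).2.1 i (Finset.mem_singleton_self i) s hs
  have h3 : ∀ (l : Filter ℝ), l.NeBot → l ≤ 𝓝[>] 2 → ∀ (S : Finset ι) (r : ℝ) (r' : ι → ℝ),
      Tendsto (fun s : ℝ => (s - 2) * F b s) l (𝓝 r) →
      (∀ i ∈ S, Tendsto (fun s : ℝ => (s - 2) * F (bK i) s) l (𝓝 (r' i))) →
      ∑ i ∈ S, (r' i - r) ^ 2 ≤ B ^ 2 := by
    intro l hl hl2 S r r' hr hr'
    have ht : Tendsto (fun s : ℝ => ∑ i ∈ S, ((s - 2) * F (bK i) s - (s - 2) * F b s) ^ 2) l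
        (𝓝 (∑ i ∈ S, (r' i - r) ^ 2)) :=
      tendsto_finsetSum _ fun i hi => ((hr' i hi).sub hr).pow 2
    refine le_of_forall_pos_le_add fun ε hε => ?_
    exact le_of_tendsto ht (hl2 ((hm S).2.2 ε hε))
  refine ⟨⟨(hm ∅).1, hsum⟩, fun S => (hm S).2.2, h3, fun ρ hρ => ?_⟩
  -- residues of functions that continue are integers
  have hint : ∀ i, Continues (bK i) → ∃ n : ℤ, HasRes (bK i) n := by
    rintro i ⟨G, hG, hGs⟩
    exact Pool.Agent.Helper79.TT.hA10 (Primes (K i)) (bK i) (fun w => (q w : ℝ))
      (fun w => Pool.Agent.Helper97.TN.q_two_tn w) (hsum i) G hG hGs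
  set T : Set ι := {i | Continues (bK i) ∧ ¬ HasRes (bK i) ρ} with hT
  have hcard : ∀ S : Finset ι, (S : Set ι) ⊆ T → (S.card : ℝ) ≤ B ^ 2 := by
    intro S hS
    have h4 : ∀ i ∈ S, ∃ n : ℤ, HasRes (bK i) n := fun i hi => hint i (hS hi).1
    choose! n hn using h4
    have h5 := h3 (𝓝[>] 2) inferInstance le_rfl S (ρ : ℝ) (fun i => (n i : ℝ)) hρ hn
    refine le_trans ?_ h5
    have h6 : ∀ i ∈ S, (1 : ℝ) ≤ ((n i : ℝ) - ρ) ^ 2 := by
      intro i hi
      have h7 : n i ≠ ρ := by
        intro h
        apply (hS hi).2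
        have := hn i hi
        rw [h] at this
        exact this
      have h8 : (1 : ℤ) ≤ (n i - ρ) ^ 2 := by
        have h9 : n i - ρ ≠ 0 := sub_ne_zero.2 h7
        have h10 : 0 < (n i - ρ) ^ 2 := by positivity
        simpa using Int.add_one_le_of_lt h10
      exact_mod_cast h8
    calc (S.card : ℝ) = ∑ i ∈ S, (1 : ℝ) := by simp
      _ ≤ _ := Finset.sum_le_sum h6
  have hfin : T.Finite := by
    by_contra hinf
    obtain ⟨S, hS, hc⟩ := Set.Infinite.exists_subset_card_eq hinf (⌊B ^ 2⌋₊ + 1)
    have h1 := hcard S hS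
    rw [hc] at h1
    push_cast at h1
    linarith [Nat.lt_floor_add_one (B ^ 2)]
  refine ⟨hfin, ?_⟩
  have h1 := hcard hfin.toFinset (by simp)
  rwa [← Set.ncard_eq_toFinset_card T hfin] at h1

end

end Pool.Agent.Results.MP_6090f9_nt.BaseChange
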