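import Pool.Agent.Helper47.TK.M_All
import Pool.Agent.Helper47.TK.M_Res

/-!
# The residue formula for quadratic twists of fibrations in Kummer surfaces of Jacobians (K3 surfaces)

`k` a number field, `m ≥ 0`, `K = k(y_1, .., y_m)`, `n ≥ 2` even, `a_1, .., a_n` pairwise different elements of
`𝓞 k[y_1..y_m]`.  For `D ∈ 𝓞 k[y_1..y_m]`, `D ≠ 0`, the fibration `X_D → A^m` has as its fibre over `y` the minimal resolution of
the double plane

  `w² = D(y) ∏_i (a_i(y)² z - a_i(y) s + p)`   (coordinates `s, p, z` of weight `1`, `w` of weight `n/2`),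

branched along the `n` tangent lines `a_i² z - a_i s + p = 0` of the conic `s² = 4 p z`; it is good if `D(y) ≠ 0` and the lines are
different.  For `n = 6` the fibres are K3 surfaces, the quadratic twists by `D` of the Kummer surface of the Jacobian of
`w² = ∏ (x - a_i)`; for `n ≥ 8` they are surfaces of general type.

Its function `F` satisfies the residue formula `Res_{s=2} F = rank NS = 1 + n(n-1)/2` up to `ε` for all but about `W²/ε²` of the
classes `D` modulo squares of `K`, `W = (n-2)(n-3)/2`, in the sense of the inequality (2) of the theorem below (for every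
`s` close to `2`; the exceptions may depend on `s`) or of (3) (for the limits along any sequence `s_j → 2⁺` on which they
exist), and exactly for all but at most `W²` of those `D` for which the `L`-function is meromorphic at `2`, (4).

The proof: the trace of Frobenius on the twisted part `Λ² H¹(C_y) ⊗ χ_D` of `H²` is computed by counting unordered pairs of
points of `C_y : w² = ∏ (x - a_i)` over the residue field and its quadratic extension, with the exact Weil bound; then
Bessel's inequality for the quadratic characters of `K`, which are orthonormal for the mean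
`(s-1) ∑_v (log q_v) q_v^(-s) q_v^(-m) ∑_y`, `s → 1`.
-/

set_option autoImplicit false

namespace Pool.Agent.Results.MP_6090f9_nt.TwistedKummerSurfaces

open NumberField IsDedekindDomain Polynomial Filter Topology
open scoped Classical

noncomputable section

/-- the primes of the number field `k` -/
abbrev Primes (k : Type) [Field k] [NumberField k] : Type := HeightOneSpectrum (𝓞 k)

/-- the coordinate ring `𝓞 k [y_1, .., y_m]` of the base `A^m` -/
abbrev Base (k : Type) [Field k] [NumberField k] (m : ℕ) : Type := MvPolynomial (Fin m) (𝓞 k)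

/-- the function field `k(y_1, .., y_m)` of the base -/
abbrev FunField (k : Type) [Field k] [NumberField k] (m : ℕ) : Type := FractionRing (Base k m)

/-- the residue field at `v` -/
abbrev Res {k : Type} [Field k] [NumberField k] (v : Primes k) : Type := 𝓞 k ⧸ v.asIdeal

/-- the number of points over the finite field `κ` of the double plane `w² = d ∏_i (α_i² z - α_i s + p)` in the weighted
projective space with the coordinates `s, p, z` of weight `1` and `w` of weight `n/2` (`n` even): the points with `z = 1`,
the points with `z = 0`, `s = 1` (`p` is the first coordinate), and the points with `z = s = 0`, `p = 1` -/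
def ptsD {κ : Type} [CommRing κ] {n : ℕ} (d : κ) (α : Fin n → κ) : ℕ :=
  Nat.card {z : κ × κ × κ // z.2.2 ^ 2 = d * ∏ i, (α i ^ 2 - α i * z.1 + z.2.1)} +
  Nat.card {z : κ × κ // z.2 ^ 2 = d * ∏ i, (z.1 - α i)} +
  Nat.card {z : κ // z ^ 2 = d}

variable {k : Type} [Field k] [NumberField k] {m n : ℕ}

/-- the number of elements of the residue field -/
def q (v : Primes k) : ℕ := Ideal.absNorm v.asIdeal

/-- the value of a function on the base at the point `y` over the residue field at `v` -/
def val (v : Primes k) (y : Fin m → Res v) : Base k m →+* Res v :=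
  MvPolynomial.eval₂Hom (Ideal.Quotient.mk v.asIdeal) y

/-- the number of points over the residue field of the minimal resolution of the double plane: each of its `n(n-1)/2`
singular points (nodes, over the points where two of the lines meet) is replaced by a smooth conic with `q + 1` points -/
def pts (v : Primes k) (d : Res v) (α : Fin n → Res v) : ℕ := ptsD d α + n.choose 2 * q v

/-- the fibre over `y` is good: `D(y) ≠ 0` and the `n` lines are different -/
def Good (D : Base k m) (a : Fin n → Base k m) (v : Primes k) (y : Fin m → Res v) : Prop :=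
  val v y D ≠ 0 ∧ Function.Injective (fun i => val v y (a i))

/-- `q_v^(-m)` times the sum over the good fibres of the trace of Frobenius on `H²` (the fibres are simply connected
surfaces, so the trace is the number of points minus `1 + q²`) -/
def avB (D : Base k m) (a : Fin n → Base k m) (v : Primes k) : ℝ :=
  (∑ᶠ y : Fin m → Res v, if Good D a v y then
    ((pts v (val v y D) (fun i => val v y (a i)) : ℝ) - 1 - (q v : ℝ) ^ 2) else 0) / (q v : ℝ) ^ m

/-- `b` agrees with `avB D a` up to a bounded function, outside a finite set of primes -/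
def Admissible (D : Base k m) (a : Fin n → Base k m) (b : Primes k → ℝ) : Prop :=
  ∃ C : ℝ, ∀ᶠ v : Primes k in cofinite, |b v - avB D a v| ≤ C

/-- the function `F` -/
def F (b : Primes k → ℝ) (s : ℝ) : ℝ := ∑' v : Primes k, b v * Real.log (q v) * (q v : ℝ) ^ (-s)

/-- `F` has residue `r` at `s = 2` (along the real axis) -/
def HasRes (b : Primes k → ℝ) (r : ℝ) : Prop :=
  Tendsto (fun s : ℝ => (s - 2) * F b s) (𝓝[>] 2) (𝓝 r)

/-- `exp(∑ b_v q_v^(-s))`, which is (up to a function that is holomorphic and nonzero at `2`) the `L`-function `L_2(s)` for `m = 0`,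
and that of the geometrically constant part of the `H²` of the fibres for `m ≥ 1`, has a meromorphic continuation to a
neighbourhood of `2` -/
def Continues (b : Primes k → ℝ) : Prop :=
  ∃ G : ℂ → ℂ, MeromorphicAt G 2 ∧
    ∀ᶠ s : ℝ in 𝓝[>] 2, G s = ((Real.exp (∑' v : Primes k, b v * (q v : ℝ) ^ (-s)) : ℝ) : ℂ)

/-- the rank of the Néron–Severi group of the generic fibre for all but finitely many `D`: the class of a line and the
`n(n-1)/2` exceptional curves (`16` for `n = 6`) -/
def rk (n : ℕ) : ℕ := 1 + n.choose 2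

/-- the dimension `(n-2)(n-3)/2` of the twisted part `Λ² H¹(C_y) ⊗ χ_D` of `H²` (`6` for `n = 6`) -/
def bound (n : ℕ) : ℝ := ((n : ℝ) - 2) * (n - 3) / 2

/-! ## Proof -/

theorem avB_eq (D : Base k m) (a : Fin n → Base k m) (v : Primes k) :
    avB D a v = Pool.Agent.Helper47.TK.BK D a v := rfl

theorem main (hn : Even n) (hn2 : 2 ≤ n) (a : Fin n → Base k m) (ha : Function.Injective a)
    {ι : Type} (D : ι → Base k m) (hD : ∀ i, D i ≠ 0)
    (hDD : ∀ i j, i ≠ j → ¬ IsSquare (algebraMap (Base k m) (FunField k m) (D i * D j)))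
    (b : ι → Primes k → ℝ) (hb : ∀ i, Admissible (D i) a (b i)) :
    (∀ i, ∀ s : ℝ, 2 < s →
      Summable (fun v : Primes k => b i v * Real.log (q v) * (q v : ℝ) ^ (-s))) ∧
    ∀ (S : Finset ι), ∀ ε > 0, ∀ᶠ s : ℝ in 𝓝[>] 2,
      ∑ i ∈ S, ((s - 2) * F (b i) s - rk n) ^ 2 ≤ bound n ^ 2 + ε := by
  refine Pool.Agent.Helper47.TK.fam b (fun i => avB (D i) a) (rk n) (bound n) hb ?_
  intro S C R hR hbC
  obtain ⟨h1, h2⟩ := Pool.Agent.Helper47.TK.mainK Pool.Agent.Helper99.TK.hK1
    Pool.Agent.Helper47.TK.pW12 Pool.Agent.Helper47.TK.pA7 Pool.Agent.Helper47.TK.pF1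
    Pool.Agent.Helper47.TK.pK5 Pool.Agent.Helper47.TK.pK6 k m n a hn (by omega) ha S
    (fun i => D i) (fun i => hD i) (fun i j hij => hDD i j (fun h => hij (Subtype.ext h)))
    C R (fun i => b i) hR hbC
  refine ⟨h1, fun ε hε => ?_⟩
  filter_upwards [h2 ε hε] with s hs
  unfold rk bound
  push_cast
  exact hs

/-- **Theorem.**  Let `k` be a number field, `m ≥ 0`, `n ≥ 2` even, `a_1, .., a_n` pairwise different elements of
`𝓞 k [y_1, .., y_m]`, `K = k(y_1, .., y_m)`.  Let `D_i` be a family (finite or infinite) of nonzero elements of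
`𝓞 k [y_1, .., y_m]`, pairwise different modulo squares of `K`, and `b_i` admissible for `D_i`.  Then, with `r = 1 + n(n-1)/2` and
`W = (n-2)(n-3)/2`: (1) the series `F` converges for `s > 2`; (2) for every finite set `S` of indices and `ε > 0`:
`∑_(i ∈ S) ((s-2) F_i(s) - r)² ≤ W² + ε` for all `s > 2` close to `2`; (3) if `(s-2) F_i(s) → ρ_i` for `i ∈ S` along a filter `l`
finer than that of the right neighbourhoods of `2` (the residues themselves, or the limits along a sequence `s_j → 2⁺`) then
`∑_(i ∈ S) (ρ_i - r)² ≤ W²`; (4) among the `i` for which `exp(∑ b_v q_v^(-s))` is meromorphic at `2`, all but at most `W²` have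
residue exactly `r`. -/
theorem result (k : Type) [Field k] [NumberField k] (m n : ℕ) (hn : Even n) (hn2 : 2 ≤ n)
    (a : Fin n → Base k m) (ha : Function.Injective a)
    (ι : Type) (D : ι → Base k m) (hD : ∀ i, D i ≠ 0)
    (hDD : ∀ i j, i ≠ j → ¬ IsSquare (algebraMap (Base k m) (FunField k m) (D i * D j)))
    (b : ι → Primes k → ℝ) (hb : ∀ i, Admissible (D i) a (b i)) :
    (∀ i, ∀ s : ℝ, 2 < s →
      Summable (fun v : Primes k => b i v * Real.log (q v) * (q v : ℝ) ^ (-s))) ∧
    (∀ (S : Finset ι), ∀ ε > 0, ∀ᶠ s : ℝ in 𝓝[>] 2,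
      ∑ i ∈ S, ((s - 2) * F (b i) s - rk n) ^ 2 ≤ bound n ^ 2 + ε) ∧
    (∀ (l : Filter ℝ), l.NeBot → l ≤ 𝓝[>] 2 → ∀ (S : Finset ι) (ρ : ι → ℝ),
      (∀ i ∈ S, Tendsto (fun s : ℝ => (s - 2) * F (b i) s) l (𝓝 (ρ i))) →
      ∑ i ∈ S, (ρ i - rk n) ^ 2 ≤ bound n ^ 2) ∧
    ({i | Continues (b i) ∧ ¬ HasRes (b i) (rk n)}.Finite ∧
      ({i | Continues (b i) ∧ ¬ HasRes (b i) (rk n)}.ncard : ℝ) ≤ bound n ^ 2) := by
  obtain ⟨h1, h2⟩ := main hn hn2 a ha D hD hDD b hb
  obtain ⟨h3, h4⟩ := Pool.Agent.Helper47.TK.final4 b (rk n) (bound n) h1 h2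
  exact ⟨h1, h2, h3, h4⟩

end

end Pool.Agent.Results.MP_6090f9_nt.TwistedKummerSurfaces
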