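import Pool.Agent.Helper96.SE.Fin

/-!
# The residue formula for twists of prime order of fibrations in products of superelliptic curves

`k` a number field (no roots of unity are assumed), `n`, `n'` primes, `m ≥ 0`, `K = k(y_1, .., y_m)`, `f, g` polynomials in `x` over
`𝓞 k [y_1, .., y_m]`, separable over `K`, of positive degrees.  For `D ∈ 𝓞 k [y_1, .., y_m]`, `D ≠ 0`, the fibration `X_D → A^m`
has the fibres `C_{D,y} × C'_y`, `C_{D,y} : z^n = D(y) f(y,x)`, `C'_y : w^n' = g(y,x)`.  Its function `F` satisfies the residue formula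
`Res_{s=2} F = rank NS = 2` up to `ε` for all but about `(4 g g')²/ε²` of the classes `D` modulo `n`-th powers of `K`, where `g`, `g'` are
the genera, in the sense of the inequality (2) of the theorem below (for every `s` close to `2`; the exceptions may depend on
`s`) or of (3) (for the limits along any sequence `s_j → 2⁺` on which they exist).

The proof: Bessel's inequality for the kernel `#{z : z^n = D/D'} - 1 = ∑_ψ ψ(D) ψ(D')⁻¹` (`ψ` the characters of order `n` of the
residue field), whose mean is `0` because `K((D/D')^(1/n))` is a field, and the exact Weil bound for superelliptic curves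
of prime exponent.
-/

set_option autoImplicit false

namespace Pool.Agent.Results.MP_6090f9_nt.TwistsOfPrimeOrder

open NumberField IsDedekindDomain Polynomial Filter Topology
open scoped Classical

noncomputable section

/-- the primes of the number field `k` -/
abbrev Primes (k : Type) [Field k] [NumberField k] : Type := HeightOneSpectrum (𝓞 k)

/-- the coordinate ring `𝓞 k [y_1, .., y_m]` of the base `A^m` -/
abbrev Base (k : Type) [Field k] [NumberField k] (m : ℕ) : Type := MvPolynomial (Fin m) (𝓞 k)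

/-- the function field `k(y_1, .., y_m)` of the base -/
abbrev FunField (k : Type) [Field k] [NumberField k] (m : ℕ) : Type := FractionRing (Base k m)

/-- the residue field at `v` -/
abbrev Res {k : Type} [Field k] [NumberField k] (v : Primes k) : Type := 𝓞 k ⧸ v.asIdeal

variable {k : Type} [Field k] [NumberField k] {m : ℕ}

/-- the number of elements of the residue field -/
def q (v : Primes k) : ℕ := Ideal.absNorm v.asIdeal

/-- the value of a function on the base at the point `y` over the residue field at `v` -/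
def val (v : Primes k) (y : Fin m → Res v) : Base k m →+* Res v :=
  MvPolynomial.eval₂Hom (Ideal.Quotient.mk v.asIdeal) y

/-- the number of points over the residue field of the smooth projective model of `z^n = h(x)` (`n` a prime different from
the characteristic, `h` squarefree): the affine points, and at infinity one point for each solution of `z^n = lc(h)` if `n` divides
the degree of `h`, and one point otherwise -/
def pts (n : ℕ) (v : Primes k) (h : (Res v)[X]) : ℕ :=
  Nat.card {z : Res v × Res v // z.2 ^ n = h.eval z.1} +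
  if n ∣ h.natDegree then Nat.card {z : Res v // z ^ n = h.leadingCoeff} else 1

/-- the trace of Frobenius on `H¹` of the curve `z^n = h(x)` -/
def tr (n : ℕ) (v : Primes k) (h : (Res v)[X]) : ℤ := q v + 1 - pts n v h

/-- the fibre over `y` is a product of two smooth curves of full degree -/
def Smooth (D : Base k m) (f g : (Base k m)[X]) (v : Primes k) (y : Fin m → Res v) : Prop :=
  val v y D ≠ 0 ∧ ((f.map (val v y)).natDegree = f.natDegree ∧ Squarefree (f.map (val v y))) ∧
    (g.map (val v y)).natDegree = g.natDegree ∧ Squarefree (g.map (val v y))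

/-- `q_v^(-m)` times the sum over the smooth fibres `C_{D,y} × C'_y` of the trace of Frobenius on `H²` (Künneth:
`2 q_v` plus the product of the traces on the two `H¹`) -/
def avB (n n' : ℕ) (D : Base k m) (f g : (Base k m)[X]) (v : Primes k) : ℝ :=
  (∑ᶠ y : Fin m → Res v, if Smooth D f g v y then
    (2 * (q v : ℝ) + tr n v (C (val v y D) * f.map (val v y)) * tr n' v (g.map (val v y))) else 0) /
    (q v : ℝ) ^ m

/-- `b` agrees with `avB n n' D f g` up to a bounded function, outside a finite set of primes -/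
def Admissible (n n' : ℕ) (D : Base k m) (f g : (Base k m)[X]) (b : Primes k → ℝ) : Prop :=
  ∃ C : ℝ, ∀ᶠ v : Primes k in cofinite, |b v - avB n n' D f g v| ≤ C

/-- the function `F` -/
def F (b : Primes k → ℝ) (s : ℝ) : ℝ := ∑' v : Primes k, b v * Real.log (q v) * (q v : ℝ) ^ (-s)

/-- `F` has residue `r` at `s = 2` (along the real axis) -/
def HasRes (b : Primes k → ℝ) (r : ℝ) : Prop :=
  Tendsto (fun s : ℝ => (s - 2) * F b s) (𝓝[>] 2) (𝓝 r)

/-- `exp(∑ b_v q_v^(-s))` has a meromorphic continuation to a neighbourhood of `2` (for `m = 0` it is `L_2(s)` up to a function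
that is holomorphic and nonzero at `2`) -/
def Continues (b : Primes k → ℝ) : Prop :=
  ∃ G : ℂ → ℂ, MeromorphicAt G 2 ∧
    ∀ᶠ s : ℝ in 𝓝[>] 2, G s = ((Real.exp (∑' v : Primes k, b v * (q v : ℝ) ^ (-s)) : ℝ) : ℂ)

/-- twice the genus of the curve `z^n = h(x)`, `n` a prime, `h` squarefree of degree `d` -/
def genus2 (n d : ℕ) : ℕ := (n - 1) * (if n ∣ d then d - 2 else d - 1)

/-- `4 g g'`, where `g`, `g'` are the genera of the two curves -/
def bound (n n' : ℕ) (f g : (Base k m)[X]) : ℝ :=
  (genus2 n f.natDegree : ℝ) * (genus2 n' g.natDegree : ℝ)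

/-! ## Proof -/

theorem tr_eq (n : ℕ) (v : Primes k) (h : (Res v)[X]) :
    tr n v h = Pool.Agent.Helper96.SE.tN n h := by
  have h1 : Nat.card (Res v) = q v := (Submodule.cardQuot_apply v.asIdeal).symm
  unfold tr Pool.Agent.Helper96.SE.tN
  rw [h1]
  rfl

theorem avB_eq (n n' : ℕ) (D : Base k m) (f g : (Base k m)[X]) (v : Primes k) :
    avB n n' D f g v = Pool.Agent.Helper96.SE.BN n n' D f g v := by
  unfold avB Pool.Agent.Helper96.SE.BN
  simp only [tr_eq]
  rfl

theorem main (n n' : ℕ) (hn : n.Prime) (hn' : n'.Prime) (f g : (Base k m)[X])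
    (hf : 1 ≤ f.natDegree) (hg : 1 ≤ g.natDegree)
    (hfs : (f.map (algebraMap (Base k m) (FunField k m))).Separable)
    (hgs : (g.map (algebraMap (Base k m) (FunField k m))).Separable)
    {ι : Type} (D : ι → Base k m) (hD : ∀ i, D i ≠ 0)
    (hDD : ∀ i j, i ≠ j → ¬ ∃ z : FunField k m,
      z ^ n = algebraMap (Base k m) (FunField k m) (D i * D j ^ (n - 1)))
    (b : ι → Primes k → ℝ) (hb : ∀ i, Admissible n n' (D i) f g (b i)) (S : Finset ι) :
    (∀ i ∈ S, ∀ s : ℝ, 2 < s →
      Summable (fun v : Primes k => b i v * Real.log (q v) * (q v : ℝ) ^ (-s))) ∧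
    ∀ ε > 0, ∀ᶠ s : ℝ in 𝓝[>] 2,
      ∑ i ∈ S, ((s - 2) * F (b i) s - 2) ^ 2 ≤ bound n n' f g ^ 2 + ε := by
  choose C hC using hb
  have hR : (⋃ i ∈ S, {v : Primes k | ¬ |b i v - avB n n' (D i) f g v| ≤ C i}).Finite :=
    Set.Finite.biUnion S.finite_toSet fun i _ => hC i
  have h := Pool.Agent.Helper96.SE.pE12 k m f g hf hg hfs hgs n n' hn hn' S (fun i => D i)
    (fun i => hD i) (fun i j hij => hDD i j (fun h => hij (Subtype.ext h)))
    (∑ i ∈ S, |C i|) _ (fun i => b i) hR (fun i v hv => by
      have h1 : |b i v - avB n n' (D i) f g v| ≤ C i := by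
        by_contra hc
        exact hv (Set.mem_biUnion (s := (S : Set ι)) i.2 hc)
      rw [avB_eq] at h1
      refine h1.trans ((le_abs_self _).trans ?_)
      exact Finset.single_le_sum (f := fun i => |C i|) (fun _ _ => abs_nonneg _) i.2)
  refine ⟨fun i hi s hs => h.1 ⟨i, hi⟩ s hs, fun ε hε => ?_⟩
  filter_upwards [h.2 ε hε] with s hs
  have e1 : ∑ i ∈ S, ((s - 2) * F (b i) s - 2) ^ 2 =
      ∑ i : S, ((s - 2) * (∑' v : Primes k, b i v * Real.log (Pool.Agent.Helper95.TT.q v) *
        (Pool.Agent.Helper95.TT.q v : ℝ) ^ (-s)) - 2) ^ 2 :=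
    (Finset.sum_coe_sort S fun i => ((s - 2) * F (b i) s - 2) ^ 2).symm
  have e2 : bound n n' f g ^ 2 = ((Pool.Agent.Helper96.SE.gg n f.natDegree *
      Pool.Agent.Helper96.SE.gg n' g.natDegree : ℕ) : ℝ) ^ 2 := by
    unfold bound
    rw [Nat.cast_mul]
    rfl
  rw [e1, e2]
  exact hs

/-- **Theorem.**  Let `k` be a number field, `n`, `n'` primes, `m ≥ 0`, `f, g` polynomials in one variable over
`𝓞 k [y_1, .., y_m]`, of positive degree and separable over `K = k(y_1, .., y_m)`, `g`, `g'` the genera of `z^n = f(x)`, `w^n' = g(x)`.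
Let `D_i` be a family (finite or infinite) of nonzero elements of `𝓞 k [y_1, .., y_m]`, pairwise different modulo `n`-th powers of
`K`, and `b_i` admissible for `D_i`.
Then (1) the series `F` converges for `s > 2`; (2) for every finite set `S` of indices and `ε > 0`:
`∑_(i ∈ S) ((s-2) F_i(s) - 2)² ≤ (4 g g')² + ε` for all `s > 2` close to `2`; (3) if `(s-2) F_i(s) → r_i` for `i ∈ S` along a
filter `l` finer than that of the right neighbourhoods of `2` (the residues themselves, or the limits along a sequence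
`s_j → 2⁺`) then `∑_(i ∈ S) (r_i - 2)² ≤ (4 g g')²`; (4) among the `i` for which `exp(∑ b_v q_v^(-s))` is meromorphic at `2`, all but at most
`(4 g g')²` have residue exactly `2`. -/
theorem result (k : Type) [Field k] [NumberField k] (n n' : ℕ) (hn : n.Prime) (hn' : n'.Prime)
    (m : ℕ) (f g : (Base k m)[X]) (hf : 1 ≤ f.natDegree) (hg : 1 ≤ g.natDegree)
    (hfs : (f.map (algebraMap (Base k m) (FunField k m))).Separable)
    (hgs : (g.map (algebraMap (Base k m) (FunField k m))).Separable)
    (ι : Type) (D : ι → Base k m) (hD : ∀ i, D i ≠ 0)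
    (hDD : ∀ i j, i ≠ j → ¬ ∃ z : FunField k m,
      z ^ n = algebraMap (Base k m) (FunField k m) (D i * D j ^ (n - 1)))
    (b : ι → Primes k → ℝ) (hb : ∀ i, Admissible n n' (D i) f g (b i)) :
    (∀ i, ∀ s : ℝ, 2 < s →
      Summable (fun v : Primes k => b i v * Real.log (q v) * (q v : ℝ) ^ (-s))) ∧
    (∀ (S : Finset ι), ∀ ε > 0, ∀ᶠ s : ℝ in 𝓝[>] 2,
      ∑ i ∈ S, ((s - 2) * F (b i) s - 2) ^ 2 ≤ bound n n' f g ^ 2 + ε) ∧
    (∀ (l : Filter ℝ), l.NeBot → l ≤ 𝓝[>] 2 → ∀ (S : Finset ι) (r : ι → ℝ),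
      (∀ i ∈ S, Tendsto (fun s : ℝ => (s - 2) * F (b i) s) l (𝓝 (r i))) →
      ∑ i ∈ S, (r i - 2) ^ 2 ≤ bound n n' f g ^ 2) ∧
    ({i | Continues (b i) ∧ ¬ HasRes (b i) 2}.Finite ∧
      ({i | Continues (b i) ∧ ¬ HasRes (b i) 2}.ncard : ℝ) ≤ bound n n' f g ^ 2) := by
  have hm := main n n' hn hn' f g hf hg hfs hgs D hD hDD b hb
  have hsum : ∀ i, ∀ s : ℝ, 2 < s →
      Summable (fun v : Primes k => b i v * Real.log (q v) * (q v : ℝ) ^ (-s)) :=
    fun i s hs => (hm {i}).1 i (Finset.mem_singleton_self i) s hs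
  have h3 : ∀ (l : Filter ℝ), l.NeBot → l ≤ 𝓝[>] 2 → ∀ (S : Finset ι) (r : ι → ℝ),
      (∀ i ∈ S, Tendsto (fun s : ℝ => (s - 2) * F (b i) s) l (𝓝 (r i))) →
      ∑ i ∈ S, (r i - 2) ^ 2 ≤ bound n n' f g ^ 2 := by
    intro l hl hl2 S r hr
    have ht : Tendsto (fun s : ℝ => ∑ i ∈ S, ((s - 2) * F (b i) s - 2) ^ 2) l
        (𝓝 (∑ i ∈ S, (r i - 2) ^ 2)) :=
      tendsto_finsetSum _ fun i hi => ((hr i hi).sub_const 2).pow 2
    refine le_of_forall_pos_le_add fun ε hε => ?_
    exact le_of_tendsto ht (hl2 ((hm S).2 ε hε))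
  refine ⟨hsum, fun S => (hm S).2, h3, ?_⟩
  -- residues of functions that continue are integers
  have hint : ∀ i, Continues (b i) → ∃ n : ℤ, HasRes (b i) n := by
    rintro i ⟨G, hG, hGs⟩
    exact Pool.Agent.Helper95.TF.a10 (Primes k) (b i) (fun v => (q v : ℝ))
      (fun v => by exact_mod_cast Pool.Agent.Helper24.TF.q_two_tf v) (hsum i) G hG hGs
  set T : Set ι := {i | Continues (b i) ∧ ¬ HasRes (b i) 2} with hT
  have hcard : ∀ S : Finset ι, (S : Set ι) ⊆ T → (S.card : ℝ) ≤ bound n n' f g ^ 2 := by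
    intro S hS
    have h4 : ∀ i ∈ S, ∃ n : ℤ, HasRes (b i) n := fun i hi => hint i (hS hi).1
    choose! r hr using h4
    have h5 := h3 (𝓝[>] 2) inferInstance le_rfl S (fun i => (r i : ℝ)) hr
    refine le_trans ?_ h5
    have h6 : ∀ i ∈ S, (1 : ℝ) ≤ ((r i : ℝ) - 2) ^ 2 := by
      intro i hi
      have h7 : r i ≠ 2 := by
        intro h
        apply (hS hi).2
        have := hr i hi
        rw [h] at this
        exact_mod_cast this
      have h8 : (1 : ℤ) ≤ (r i - 2) ^ 2 := by
        have h9 : r i - 2 ≠ 0 := sub_ne_zero.2 h7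
        have h10 : 0 < (r i - 2) ^ 2 := by positivity
        simpa using Int.add_one_le_of_lt h10
      exact_mod_cast h8
    calc (S.card : ℝ) = ∑ i ∈ S, (1 : ℝ) := by simp
      _ ≤ _ := Finset.sum_le_sum h6
  have hfin : T.Finite := by
    by_contra hinf
    obtain ⟨S, hS, hc⟩ := Set.Infinite.exists_subset_card_eq hinf (⌊bound n n' f g ^ 2⌋₊ + 1)
    have h1 := hcard S hS
    rw [hc] at h1
    push_cast at h1
    linarith [Nat.lt_floor_add_one (bound n n' f g ^ 2)]
  refine ⟨hfin, ?_⟩
  have h1 := hcard hfin.toFinset (by simp)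
  rwa [← Set.ncard_eq_toFinset_card T hfin] at h1

end

end Pool.Agent.Results.MP_6090f9_nt.TwistsOfPrimeOrder
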