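import Pool.Agent.Helper72.TX.Fin
import Pool.Agent.Helper72.TX.Cur
import Pool.Agent.Helper79.TT.M_A10

/-!
# The residue formula for quadratic twists over all number fields

`k` a number field, `X₀ → Y₀` ANY fibration (or variety) over `k` with an involution `ι` of `X₀` over `Y₀`.  At the primes `v` of `k`
the trace of Frobenius on `H²` of the fibres, averaged as in the problem, is the sum of the contributions of the two
eigenspaces of `ι`; `A v` is that of the eigenvalue `-1`; all that is used is `|A v| ≤ B q_v` (Deligne; for products of two curves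
it is proved here, part (II)).  For a number field `K ⊇ k` and `E ∈ K*` let `X_E` be the twist of `(X₀)_K` by `ι` and the quadratic
character `χ_E` of `K`.  Its traces at the primes `w` of degree one of `K` are `b⁺ w + χ_E(w) A v`, `b⁺` the traces of the quotient
`X₀/ι` over `K`.

THEOREM.  Let `M/k` be a Galois extension of degree `N` (`M = k` is allowed).  Over ALL number fields `K_i ⊇ M`, of all degrees together,
and all `E_i ∈ K_i*` such that no product of a conjugate of `E_i` and one of `E_j`, `j ≠ i`, is a square in the compositum of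
the two fields, and at most `u` of the conjugates of `E_i` are related in this way to a given one (`u = 1`: `E_i` is primitive; if
`K_i = M` then `N/u` is the number of classes of the conjugates of `E_i` modulo squares):
`∑_i ((s-2) F_i(s) - (s-2) F_i⁺(s))² ≤ u B²/N + ε` for `s > 2` close to `2`.  So, if `N > u B²`, there are NO exceptions: for EVERY
number field `K ⊇ M` and every such `E` the difference is at most `B √(u/N) + ε < 1`, and it has the residue `0` if `F` continues
to a neighbourhood of `2`.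

The proof: the functions `v ↦ ∑ χ_(E_i)(w)`, over the primes `w` of degree one of `K_i` above `v`, are the characters of the
representations of `Gal(k̄/k)` induced by the `χ_(E_i)`; they are orthonormal (Mackey), and vanish unless `v` splits completely in `M`;
Frobenius' density theorem (only the pole of Dedekind zeta functions at `1` is used) and Bessel's inequality on the set of
these `v`, which has the density `1/N`.
-/

set_option autoImplicit false

namespace Pool.Agent.Results.MP_6090f9_nt.TwistsOverAllNumberFields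

open NumberField IsDedekindDomain Polynomial Filter Topology
open scoped Classical

noncomputable section

/-- the primes of the number field `k` -/
abbrev Primes (k : Type) [Field k] [NumberField k] : Type := HeightOneSpectrum (𝓞 k)

/-- the residue field at `v` -/
abbrev Res {k : Type} [Field k] [NumberField k] (v : Primes k) : Type := 𝓞 k ⧸ v.asIdeal

variable {k : Type} [Field k] [NumberField k]

/-- the number of elements of the residue field -/
def q (v : Primes k) : ℕ := Ideal.absNorm v.asIdeal

/-- the function `F` -/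
def F (b : Primes k → ℝ) (s : ℝ) : ℝ := ∑' v : Primes k, b v * Real.log (q v) * (q v : ℝ) ^ (-s)

/-- `F` has residue `r` at `s = 2` (along the real axis) -/
def HasRes (b : Primes k → ℝ) (r : ℝ) : Prop :=
  Tendsto (fun s : ℝ => (s - 2) * F b s) (𝓝[>] 2) (𝓝 r)

/-- `exp(∑ b_v q_v^(-s))` has a meromorphic continuation to a neighbourhood of `2` (for a smooth projective variety over `k`
this function is `L_2(s)` up to a function that is holomorphic and nonzero at `2`) -/
def Continues (b : Primes k → ℝ) : Prop :=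
  ∃ G : ℂ → ℂ, MeromorphicAt G 2 ∧
    ∀ᶠ s : ℝ in 𝓝[>] 2, G s = ((Real.exp (∑' v : Primes k, b v * (q v : ℝ) ^ (-s)) : ℝ) : ℂ)

/-- the quadratic character of `E` at `v`: `0` if `2E ∈ v`, and otherwise `1` or `-1` if `E` is or is not a square modulo `v` -/
def chi (E : 𝓞 k) (v : Primes k) : ℝ :=
  if 2 * E ∈ v.asIdeal then 0 else if ∃ a : 𝓞 k, a ^ 2 - E ∈ v.asIdeal then 1 else -1

/-- `w` is a prime of degree one of `K` above the prime `v` of `k` -/
def DegOne {K : Type} [Field K] [NumberField K] [Algebra k K] (w : Primes K) (v : Primes k) : Prop :=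
  w.asIdeal.comap (algebraMap (𝓞 k) (𝓞 K)) = v.asIdeal ∧ q w = q v

/-- `b` behaves like the traces on `H²` of the twist `X_E`, and `bp` like those of the quotient `X₀/ι`, over `K`: outside a finite set
of primes of `K` both are `O(q_w)`, and `b w = bp w + χ_E(w) A v` up to a bounded error if `w` is of degree one above `v` -/
def IsTwist {K : Type} [Field K] [NumberField K] [Algebra k K] (A : Primes k → ℝ) (E : 𝓞 K)
    (bp b : Primes K → ℝ) : Prop :=
  ∃ C : ℝ, ∀ᶠ w : Primes K in cofinite, |bp w| ≤ C * q w ∧ |b w| ≤ C * q w ∧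
    ∀ v : Primes k, DegOne w v → |b w - bp w - chi E w * A v| ≤ C

/-- the product of the conjugates of `E`, `E'` given by the embeddings `x`, `y` is a square in the compositum of the conjugate
fields -/
def Linked {K K' : Type} [Field K] [NumberField K] [Field K'] [NumberField K'] [Algebra k K]
    [Algebra k K'] (E : 𝓞 K) (E' : 𝓞 K') (x : K →ₐ[k] AlgebraicClosure k)
    (y : K' →ₐ[k] AlgebraicClosure k) : Prop :=
  ∃ z ∈ x.fieldRange ⊔ y.fieldRange, z ^ 2 = x (E : K) * y (E' : K')

/-! ## Curves (part (II)) -/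

/-- the coordinate ring `𝓞 k [y_1, .., y_m]` of the base `A^m` -/
abbrev Base (k : Type) [Field k] [NumberField k] (m : ℕ) : Type := MvPolynomial (Fin m) (𝓞 k)

variable {m : ℕ}

/-- the value of a function on the base at the point `y` over the residue field at `v` -/
def val (v : Primes k) (y : Fin m → Res v) : Base k m →+* Res v :=
  MvPolynomial.eval₂Hom (Ideal.Quotient.mk v.asIdeal) y

/-- the number of points over the residue field of the smooth projective model of `z^n = h(x)` (`n` a prime different from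
the characteristic, `h` squarefree) -/
def pts (n : ℕ) (v : Primes k) (h : (Res v)[X]) : ℕ :=
  Nat.card {z : Res v × Res v // z.2 ^ n = h.eval z.1} +
  if n ∣ h.natDegree then Nat.card {z : Res v // z ^ n = h.leadingCoeff} else 1

/-- the trace of Frobenius on `H¹` of the curve `z^n = h(x)` -/
def tr (n : ℕ) (v : Primes k) (h : (Res v)[X]) : ℤ := q v + 1 - pts n v h

/-- the curve `z^n = f(y,x)` is smooth of full degree -/
def Good (f : (Base k m)[X]) (v : Primes k) (y : Fin m → Res v) : Prop :=
  (f.map (val v y)).natDegree = f.natDegree ∧ Squarefree (f.map (val v y))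

/-- the average over the fibres of the trace of Frobenius on `H¹ ⊗ H¹` of the product of the curves `z² = f(y,x)` and
`w^n = g(y,x)`; the involution `z ↦ -z` acts on it as `-1`, and trivially on the rest of `H²`, where the trace is `2 q_v` -/
def avA (n : ℕ) (f g : (Base k m)[X]) (v : Primes k) : ℝ :=
  (∑ᶠ y : Fin m → Res v, if Good f v y ∧ Good g v y then
    (tr 2 v (f.map (val v y)) : ℝ) * tr n v (g.map (val v y)) else 0) / (q v : ℝ) ^ m

/-- twice the genus of the curve `z^n = h(x)`, `n` a prime, `h` squarefree of degree `d` -/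
def genus2 (n d : ℕ) : ℕ := (n - 1) * (if n ∣ d then d - 2 else d - 1)

/-! ## Proof -/

theorem tr_eq (n : ℕ) (v : Primes k) (h : (Res v)[X]) :
    tr n v h = Pool.Agent.Helper96.SE.tN n h := by
  have h1 : Nat.card (Res v) = q v := (Submodule.cardQuot_apply v.asIdeal).symm
  unfold tr Pool.Agent.Helper96.SE.tN
  rw [h1]
  rfl

theorem avA_eq (n : ℕ) (f g : (Base k m)[X]) (v : Primes k) :
    avA n f g v = Pool.Agent.Helper72.TX.avT n f g v := by
  unfold avA Pool.Agent.Helper72.TX.avT
  simp only [tr_eq]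
  congr 1
  refine finsum_congr fun y => ?_
  by_cases h : Good f v y ∧ Good g v y
  · rw [if_pos h]
    exact (if_pos h).symm
  · rw [if_neg h]
    exact (if_neg h).symm

theorem main (k : Type) [Field k] [NumberField k] (M : Type) [Field M] [NumberField M] [Algebra k M]
    [IsGalois k M] (A : Primes k → ℝ) (B : ℝ) (hA : ∀ᶠ v : Primes k in cofinite, |A v| ≤ B * q v)
    (ι : Type) (K : ι → Type) [∀ i, Field (K i)] [∀ i, NumberField (K i)] [∀ i, Algebra k (K i)]
    (hM : ∀ i, Nonempty (M →ₐ[k] K i)) (E : ∀ i, 𝓞 (K i)) (hE : ∀ i, E i ≠ 0)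
    (hEE : ∀ i j, i ≠ j → ∀ (x : K i →ₐ[k] AlgebraicClosure k) (y : K j →ₐ[k] AlgebraicClosure k),
      ¬ Linked (E i) (E j) x y)
    (u : ℕ) (hu : ∀ i (x : K i →ₐ[k] AlgebraicClosure k),
      Nat.card {y : K i →ₐ[k] AlgebraicClosure k // Linked (E i) (E i) x y} ≤ u)
    (bp b : ∀ i, Primes (K i) → ℝ) (hb : ∀ i, IsTwist A (E i) (bp i) (b i)) (S : Finset ι) :
    (∀ i ∈ S, ∀ s : ℝ, 2 < s →
      Summable (fun w : Primes (K i) => bp i w * Real.log (q w) * (q w : ℝ) ^ (-s))) ∧
    (∀ i ∈ S, ∀ s : ℝ, 2 < s →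
      Summable (fun w : Primes (K i) => b i w * Real.log (q w) * (q w : ℝ) ^ (-s))) ∧
    ∀ ε > 0, ∀ᶠ s : ℝ in 𝓝[>] 2,
      ∑ i ∈ S, ((s - 2) * F (b i) s - (s - 2) * F (bp i) s) ^ 2 ≤
        u * B ^ 2 / Module.finrank k M + ε := by
  choose C hC using hb
  have j : ∀ i, M →ₐ[k] K i := fun i => Classical.choice (hM i)
  have hCle : ∀ i : S, C i ≤ ∑ i ∈ S, |C i| := fun i => (le_abs_self _).trans
    (Finset.single_le_sum (f := fun i => |C i|) (fun _ _ => abs_nonneg _) i.2)
  have h := Pool.Agent.Helper72.TX.finite_formT k A B (∑ i ∈ S, |C i|) _ hA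
    (fun v hv => not_not.1 hv) M S (fun i => K i) (fun i => j i) (fun i => E i) (fun i => hE i)
    (fun i i' hii => hEE i i' (fun h => hii (Subtype.ext h))) u (fun i => hu i)
    (fun i => bp i) (fun i => b i)
    (fun i => {w | ¬ (|bp i w| ≤ C i * q w ∧ |b i w| ≤ C i * q w ∧
      ∀ v : Primes k, DegOne w v → |b i w - bp i w - chi (E i) w * A v| ≤ C i)})
    (fun i => hC i)
    (fun i w hw => (not_not.1 hw).1.trans (mul_le_mul_of_nonneg_right (hCle i) (Nat.cast_nonneg _)))
    (fun i w hw => (not_not.1 hw).2.1.trans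
      (mul_le_mul_of_nonneg_right (hCle i) (Nat.cast_nonneg _)))
    (fun i w v hw hwv => ((not_not.1 hw).2.2 v hwv).trans (hCle i))
  refine ⟨fun i hi => h.1 ⟨i, hi⟩, fun i hi => h.2.1 ⟨i, hi⟩, fun ε hε => ?_⟩
  filter_upwards [h.2.2 ε hε] with s hs
  have e1 : ∑ i ∈ S, ((s - 2) * F (b i) s - (s - 2) * F (bp i) s) ^ 2 =
      ∑ i : S, ((s - 2) * F (b i) s - (s - 2) * F (bp i) s) ^ 2 :=
    (Finset.sum_coe_sort S fun i => ((s - 2) * F (b i) s - (s - 2) * F (bp i) s) ^ 2).symm
  rw [e1]
  exact hs

/-- **Theorem.**  (I) Let `k` be a number field, `M/k` a Galois extension of degree `N`, `A` a real function on the primes of `k`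
with `|A v| ≤ B q_v` for almost all `v`; `K_i` a family (finite or infinite) of number fields containing `M`, `0 ≠ E_i ∈ 𝓞 (K_i)`, such that
for `i ≠ j` no conjugate of `E_i` is linked to a conjugate of `E_j`, and at most `u` conjugates of `E_i` are linked to a given
one; and let `b_i`, `bp_i` be as in `IsTwist`.  Then (1) the series of `bp_i` and `b_i` converge for `s > 2`; (2) for every finite set `S`
of indices and `ε > 0`: `∑_(i ∈ S) ((s-2) F_i(s) - (s-2) F_i⁺(s))² ≤ u B²/N + ε` for all `s > 2` close to `2`; (3) if the differences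
`(s-2) F_i(s) - (s-2) F_i⁺(s)` tend to `r_i` for `i ∈ S` along a filter finer than that of the right neighbourhoods of `2`, then
`∑_(i ∈ S) r_i² ≤ u B²/N`; (4) if the `F_i⁺` have the residues `ρ_i ∈ ℤ` then, among the `i` for which `exp(∑ b_i(w) q_w^(-s))` is
meromorphic at `2`, all but at most `u B²/N` (so all, if `N > u B²`) have `F_i` with the residue exactly `ρ_i`.

(II) For the fibration over `A^m` with the fibres `{z² = f(y,x)} × {w^n = g(y,x)}`, `n` a prime, and the involution `z ↦ -z`, the
hypothesis of (I) holds with `B = 4 g g'` (`g`, `g'` the genera of the two curves), for all primes `v`, and the function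
`2 q_w` has the residue `2`. -/
theorem result :
    (∀ (k : Type) [Field k] [NumberField k] (M : Type) [Field M] [NumberField M] [Algebra k M]
      [IsGalois k M] (A : Primes k → ℝ) (B : ℝ), (∀ᶠ v : Primes k in cofinite, |A v| ≤ B * q v) →
      ∀ (ι : Type) (K : ι → Type) [∀ i, Field (K i)] [∀ i, NumberField (K i)]
      [∀ i, Algebra k (K i)], (∀ i, Nonempty (M →ₐ[k] K i)) →
      ∀ (E : ∀ i, 𝓞 (K i)), (∀ i, E i ≠ 0) →
      (∀ i j, i ≠ j → ∀ (x : K i →ₐ[k] AlgebraicClosure k) (y : K j →ₐ[k] AlgebraicClosure k),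
        ¬ Linked (E i) (E j) x y) →
      ∀ (u : ℕ), (∀ i (x : K i →ₐ[k] AlgebraicClosure k),
        Nat.card {y : K i →ₐ[k] AlgebraicClosure k // Linked (E i) (E i) x y} ≤ u) →
      ∀ (bp b : ∀ i, Primes (K i) → ℝ), (∀ i, IsTwist A (E i) (bp i) (b i)) →
      (∀ i, ∀ s : ℝ, 2 < s →
        Summable (fun w : Primes (K i) => bp i w * Real.log (q w) * (q w : ℝ) ^ (-s)) ∧
        Summable (fun w : Primes (K i) => b i w * Real.log (q w) * (q w : ℝ) ^ (-s))) ∧
      (∀ (S : Finset ι), ∀ ε > 0, ∀ᶠ s : ℝ in 𝓝[>] 2,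
        ∑ i ∈ S, ((s - 2) * F (b i) s - (s - 2) * F (bp i) s) ^ 2 ≤
          u * B ^ 2 / Module.finrank k M + ε) ∧
      (∀ (l : Filter ℝ), l.NeBot → l ≤ 𝓝[>] 2 → ∀ (S : Finset ι) (r : ι → ℝ),
        (∀ i ∈ S, Tendsto (fun s : ℝ => (s - 2) * F (b i) s - (s - 2) * F (bp i) s) l (𝓝 (r i))) →
        ∑ i ∈ S, r i ^ 2 ≤ u * B ^ 2 / Module.finrank k M) ∧
      ∀ ρ : ι → ℤ, (∀ i, HasRes (bp i) (ρ i)) →
        {i | Continues (b i) ∧ ¬ HasRes (b i) (ρ i)}.Finite ∧
        ({i | Continues (b i) ∧ ¬ HasRes (b i) (ρ i)}.ncard : ℝ) ≤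
          u * B ^ 2 / Module.finrank k M) ∧
    ∀ (k : Type) [Field k] [NumberField k] (m n : ℕ) (f g : (Base k m)[X]), n.Prime →
      1 ≤ f.natDegree → 1 ≤ g.natDegree →
      (∀ v : Primes k, |avA n f g v| ≤ ((genus2 2 f.natDegree : ℝ) * genus2 n g.natDegree) * q v) ∧
      HasRes (fun v : Primes k => 2 * (q v : ℝ)) 2 := by
  refine ⟨?_, ?_⟩
  · intro k _ _ M _ _ _ _ A B hA ι K _ _ _ hM E hE hEE u hu bp b hb
    have hm := main k M A B hA ι K hM E hE hEE u hu bp b hb
    have hsum : ∀ i, ∀ s : ℝ, 2 < s →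
        Summable (fun w : Primes (K i) => b i w * Real.log (q w) * (q w : ℝ) ^ (-s)) :=
      fun i s hs => (hm {i}).2.1 i (Finset.mem_singleton_self i) s hs
    have h3 : ∀ (l : Filter ℝ), l.NeBot → l ≤ 𝓝[>] 2 → ∀ (S : Finset ι) (r : ι → ℝ),
        (∀ i ∈ S, Tendsto (fun s : ℝ => (s - 2) * F (b i) s - (s - 2) * F (bp i) s) l (𝓝 (r i))) →
        ∑ i ∈ S, r i ^ 2 ≤ u * B ^ 2 / Module.finrank k M := by
      intro l hl hl2 S r hr
      have ht : Tendsto (fun s : ℝ => ∑ i ∈ S, ((s - 2) * F (b i) s - (s - 2) * F (bp i) s) ^ 2) l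
          (𝓝 (∑ i ∈ S, r i ^ 2)) := tendsto_finsetSum _ fun i hi => (hr i hi).pow 2
      refine le_of_forall_pos_le_add fun ε hε => ?_
      exact le_of_tendsto ht (hl2 ((hm S).2.2 ε hε))
    refine ⟨fun i s hs => ⟨(hm {i}).1 i (Finset.mem_singleton_self i) s hs, hsum i s hs⟩,
      fun S => (hm S).2.2, h3, fun ρ hρ => ?_⟩
    -- residues of functions that continue are integers
    have hint : ∀ i, Continues (b i) → ∃ n : ℤ, HasRes (b i) n := by
      rintro i ⟨G, hG, hGs⟩
      exact Pool.Agent.Helper79.TT.hA10 (Primes (K i)) (b i) (fun w => (q w : ℝ))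
        (fun w => Pool.Agent.Helper97.TN.q_two_tn w) (hsum i) G hG hGs
    set T : Set ι := {i | Continues (b i) ∧ ¬ HasRes (b i) (ρ i)} with hT
    set W : ℝ := u * B ^ 2 / Module.finrank k M with hW
    have hcard : ∀ S : Finset ι, (S : Set ι) ⊆ T → (S.card : ℝ) ≤ W := by
      intro S hS
      have h4 : ∀ i ∈ S, ∃ n : ℤ, HasRes (b i) n := fun i hi => hint i (hS hi).1
      choose! n hn using h4
      have h5 := h3 (𝓝[>] 2) inferInstance le_rfl S (fun i => (n i : ℝ) - ρ i)
        (fun i hi => (hn i hi).sub (hρ i))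
      refine le_trans ?_ h5
      have h6 : ∀ i ∈ S, (1 : ℝ) ≤ ((n i : ℝ) - ρ i) ^ 2 := by
        intro i hi
        have h7 : n i ≠ ρ i := by
          intro h
          apply (hS hi).2
          have := hn i hi
          rw [h] at this
          exact this
        have h8 : (1 : ℤ) ≤ (n i - ρ i) ^ 2 := by
          have h9 : n i - ρ i ≠ 0 := sub_ne_zero.2 h7
          have h10 : 0 < (n i - ρ i) ^ 2 := by positivity
          simpa using Int.add_one_le_of_lt h10
        exact_mod_cast h8
      calc (S.card : ℝ) = ∑ i ∈ S, (1 : ℝ) := by simp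
        _ ≤ _ := Finset.sum_le_sum h6
    have hfin : T.Finite := by
      by_contra hinf
      obtain ⟨S, hS, hc⟩ := Set.Infinite.exists_subset_card_eq hinf (⌊W⌋₊ + 1)
      have h1 := hcard S hS
      rw [hc] at h1
      push_cast at h1
      linarith [Nat.lt_floor_add_one W]
    refine ⟨hfin, ?_⟩
    have h1 := hcard hfin.toFinset (by simp)
    rwa [← Set.ncard_eq_toFinset_card T hfin] at h1
  · intro k _ _ m n f g hn hf hg
    refine ⟨fun v => ?_, Pool.Agent.Helper72.TX.res_two k⟩
    rw [avA_eq]
    exact Pool.Agent.Helper72.TX.avT_le n hn f g hf hg v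

end

end Pool.Agent.Results.MP_6090f9_nt.TwistsOverAllNumberFields
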